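import Pool.Agent.Q79.KX.Stm
import Pool.Agent.Q79.KvI

/-! Project KX (helper79), job MM: value of the quotient by a power of a cyclotomic polynomial from
a bound on a small curve around the root. -/

set_option autoImplicit false

open Polynomial Finset

namespace Pool.Agent.Q198.KX

/-- distance of two different roots of unity -/
lemma root_dist (m : ℕ) (hm : 1 ≤ m) (v μ : ℂ) (hv : v ^ (2 * m) = 1) (hμ : μ ^ (2 * m) = 1)
    (hne : μ ≠ v) : 1 / (m : ℝ) ≤ ‖v - μ‖ := by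
  have hv0 : v ≠ 0 := by
    intro h
    rw [h, zero_pow (by omega)] at hv
    exact zero_ne_one hv
  have hN : 2 * m ≠ 0 := by omega
  have hprim := Complex.isPrimitiveRoot_exp (2 * m) hN
  have i1 : NeZero (2 * m) := ⟨hN⟩
  have h1 : (μ / v) ^ (2 * m) = 1 := by rw [div_pow, hv, hμ, div_one]
  obtain ⟨b, hb, hbe⟩ := hprim.eq_pow_of_pow_eq_one h1
  have hb0 : 0 < b := by
    rcases Nat.eq_zero_or_pos b with h | h
    · exfalso
      rw [h, pow_zero] at hbe
      apply hne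
      field_simp at hbe
      exact hbe.symm
    · exact h
  have h2 := Pool.Agent.Q79.KV.norm_ge hb0 hb
  have h3 : Complex.exp (2 * Real.pi * Complex.I / ((2 * m : ℕ) : ℂ)) ^ b = μ / v := hbe
  rw [h3] at h2
  have hvn : ‖v‖ = 1 := Complex.norm_eq_one_of_pow_eq_one hv hN
  have h4 : ‖v - μ‖ = ‖(1 : ℂ) - μ / v‖ := by
    have : v - μ = v * (1 - μ / v) := by field_simp
    rw [this, norm_mul, hvn, one_mul]
  rw [h4]
  refine le_trans ?_ h2
  have hm' : (0 : ℝ) < m := by exact_mod_cast hm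
  have h5 : (1 : ℝ) ≤ ((min b (2 * m - b) : ℕ) : ℝ) := by
    have : 1 ≤ min b (2 * m - b) := le_min hb0 (by omega)
    exact_mod_cast this
  rw [div_le_div_iff₀ hm' (by positivity)]
  push_cast
  push_cast at h5
  nlinarith

lemma cyc_fac (n : ℕ) (hn : 0 < n) (v : ℂ) (hv : IsPrimitiveRoot v n) :
    (∀ x : ℂ, aeval x (cyclotomic n ℤ) = (x - v) * ∏ μ ∈ (primitiveRoots n ℂ).erase v, (x - μ)) ∧
    aeval v (derivative (cyclotomic n ℤ)) = ∏ μ ∈ (primitiveRoots n ℂ).erase v, (v - μ) := by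
  classical
  have hmem : v ∈ primitiveRoots n ℂ := (mem_primitiveRoots hn).2 hv
  have h1 : cyclotomic n ℂ = (X - C v) * ∏ μ ∈ (primitiveRoots n ℂ).erase v, (X - C μ) := by
    rw [cyclotomic_eq_prod_X_sub_primitiveRoots hv]
    exact (Finset.mul_prod_erase _ (fun μ => X - C μ) hmem).symm
  have h2 : ∀ (P : ℤ[X]) (x : ℂ), aeval x P = (P.map (Int.castRingHom ℂ)).eval x := by
    intro P x
    rw [aeval_def, ← eval_map, algebraMap_int_eq]
  constructor
  · intro x
    rw [h2, map_cyclotomic, h1, eval_mul, eval_prod]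
    simp
  · rw [h2, ← derivative_map, map_cyclotomic, h1, derivative_mul, eval_add, eval_mul, eval_mul,
      eval_prod]
    simp

lemma lower (m : ℕ) (hm : 1 ≤ m) (v : ℂ) (hv : IsPrimitiveRoot v (2 * m)) (ρ : ℝ) (hρ : 0 < ρ)
    (hρ' : ρ ≤ 1 / (16 * (m : ℝ) ^ 2)) (s : ℂ) (hs : ‖s‖ = ρ) :
    ρ / 4 * ‖aeval v (derivative (cyclotomic (2 * m) ℤ))‖ ≤
      ‖aeval (v * Complex.exp s) (cyclotomic (2 * m) ℤ)‖ := by
  classical
  obtain ⟨h1, h2⟩ := cyc_fac (2 * m) (by omega) v hv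
  have hm1 : (1 : ℝ) ≤ m := by exact_mod_cast hm
  have hρ16 : ρ ≤ 1 / 16 := by
    refine hρ'.trans ?_
    apply one_div_le_one_div_of_le (by norm_num)
    nlinarith
  have hvn : ‖v‖ = 1 := Complex.norm_eq_one_of_pow_eq_one hv.pow_eq_one (by omega)
  have h3 := Complex.norm_exp_sub_one_sub_id_le (x := s) (by rw [hs]; linarith)
  rw [hs] at h3
  have h4 : ρ / 2 ≤ ‖Complex.exp s - 1‖ := by
    have : ‖s‖ ≤ ‖Complex.exp s - 1‖ + ‖Complex.exp s - 1 - s‖ := by
      have e : s = (Complex.exp s - 1) - (Complex.exp s - 1 - s) := by ring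
      conv_lhs => rw [e]
      exact norm_sub_le _ _
    rw [hs] at this
    nlinarith
  have h5 : ‖Complex.exp s - 1‖ ≤ 2 * ρ := by
    have : ‖Complex.exp s - 1‖ ≤ ‖Complex.exp s - 1 - s‖ + ‖s‖ := by
      have e : Complex.exp s - 1 = (Complex.exp s - 1 - s) + s := by ring
      conv_lhs => rw [e]
      exact norm_add_le _ _
    rw [hs] at this
    nlinarith
  set x := v * Complex.exp s with hx
  have h6 : ‖x - v‖ = ‖Complex.exp s - 1‖ := by
    have : x - v = v * (Complex.exp s - 1) := by rw [hx]; ring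
    rw [this, norm_mul, hvn, one_mul]
  rw [h1 x, h2, norm_mul, h6, norm_prod, norm_prod]
  set S := (primitiveRoots (2 * m) ℂ).erase v with hS
  have h7 : ∀ μ ∈ S, (1 - 2 * ρ * m) * ‖v - μ‖ ≤ ‖x - μ‖ := by
    intro μ hμ
    have hμ1 : IsPrimitiveRoot μ (2 * m) :=
      (mem_primitiveRoots (by omega)).1 (Finset.mem_of_mem_erase hμ)
    have h8 := root_dist m hm v μ hv.pow_eq_one hμ1.pow_eq_one (Finset.ne_of_mem_erase hμ)
    have h9 : ‖v - μ‖ ≤ ‖x - μ‖ + ‖x - v‖ := by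
      have e : v - μ = (x - μ) - (x - v) := by ring
      conv_lhs => rw [e]
      exact norm_sub_le _ _
    rw [h6] at h9
    have h10 : 1 ≤ m * ‖v - μ‖ := by
      rw [div_le_iff₀ (by linarith)] at h8
      linarith
    nlinarith
  have hb : 2 * ρ * m ≤ 1 / 8 := by
    have : ρ * (16 * (m : ℝ) ^ 2) ≤ 1 := by
      rw [le_div_iff₀ (by positivity)] at hρ'
      exact hρ'
    nlinarith
  have h11 : (1 - 2 * ρ * m) ^ S.card * ∏ μ ∈ S, ‖v - μ‖ ≤ ∏ μ ∈ S, ‖x - μ‖ := by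
    rw [← Finset.prod_const, ← Finset.prod_mul_distrib]
    refine Finset.prod_le_prod (fun μ _ => ?_) h7
    have : 0 ≤ 1 - 2 * ρ * m := by linarith
    positivity
  have hcard : S.card ≤ 2 * m := by
    refine (Finset.card_le_card (Finset.erase_subset _ _)).trans ?_
    rw [hv.card_primitiveRoots]
    exact Nat.totient_le _
  have h12 : 1 / 2 ≤ (1 - 2 * ρ * m) ^ S.card := by
    have h13 : (1 - 2 * ρ * m) ^ (2 * m) ≤ (1 - 2 * ρ * m) ^ S.card :=
      pow_le_pow_of_le_one (by linarith) (by nlinarith) hcard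
    have h14 := one_add_mul_le_pow (a := -(2 * ρ * m)) (by linarith) (2 * m)
    have e : 1 + -(2 * ρ * m) = 1 - 2 * ρ * m := by ring
    rw [e] at h14
    push_cast at h14
    have h15 : ρ * (16 * (m : ℝ) ^ 2) ≤ 1 := by
      rw [le_div_iff₀ (by positivity)] at hρ'
      exact hρ'
    nlinarith
  have hP : 0 ≤ ∏ μ ∈ S, ‖v - μ‖ := Finset.prod_nonneg fun _ _ => norm_nonneg _
  calc ρ / 4 * ∏ μ ∈ S, ‖v - μ‖ = (ρ / 2) * ((1 / 2) * ∏ μ ∈ S, ‖v - μ‖) := by ring
    _ ≤ ‖Complex.exp s - 1‖ * ((1 - 2 * ρ * m) ^ S.card * ∏ μ ∈ S, ‖v - μ‖) := by gcongr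
    _ ≤ ‖Complex.exp s - 1‖ * ∏ μ ∈ S, ‖x - μ‖ := by gcongr

theorem mm : Pool.Agent.Q79.KX.S_MM := by
  intro m i K g H v ρ B hm hv hg hρ hρ' hbd
  classical
  have hvn : ‖v‖ = 1 := Complex.norm_eq_one_of_pow_eq_one hv.pow_eq_one (by omega)
  have hv0 : v ≠ 0 := by
    intro h
    rw [h, norm_zero] at hvn
    exact zero_ne_one hvn
  obtain ⟨h1, h2⟩ := cyc_fac (2 * m) (by omega) v hv
  set D := ‖aeval v (derivative (cyclotomic (2 * m) ℤ))‖ with hD
  have hD0 : 0 < D := by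
    rw [hD, h2, norm_pos_iff]
    refine Finset.prod_ne_zero_iff.2 fun μ hμ => ?_
    exact sub_ne_zero.2 (Finset.ne_of_mem_erase hμ).symm
  set F : ℂ → ℂ := fun s => aeval (v * Complex.exp s) H / (v * Complex.exp s) ^ K with hF
  have hFd : Differentiable ℂ F := by
    intro s
    have h3 : DifferentiableAt ℂ (fun s : ℂ => v * Complex.exp s) s :=
      (Complex.differentiable_exp.differentiableAt).const_mul v
    refine DifferentiableAt.div ?_ (h3.pow K) ?_
    · exact (Polynomial.differentiableAt_aeval H).comp s h3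
    · exact pow_ne_zero _ (mul_ne_zero hv0 (Complex.exp_ne_zero _))
  have hbound : ∀ s : ℂ, ‖s‖ = ρ → ‖F s‖ ≤ B * (4 / (ρ * D)) ^ i := by
    intro s hs
    have h3 := lower m hm v hv ρ hρ hρ' s hs
    have h4 := hbd s hs
    set x := v * Complex.exp s with hx
    have hx0 : 0 < ‖x‖ := by
      rw [norm_pos_iff]
      exact mul_ne_zero hv0 (Complex.exp_ne_zero _)
    rw [hg, map_mul, map_pow, norm_mul, norm_pow] at h4
    have hc : 0 < ρ / 4 * D := by positivity
    have hΨ : 0 < ‖aeval x (cyclotomic (2 * m) ℤ)‖ := lt_of_lt_of_le hc h3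
    have h5 : (ρ / 4 * D) ^ i * ‖aeval x H‖ ≤ B * ‖x‖ ^ K := by
      refine le_trans ?_ h4
      gcongr
    have e1 : ‖F s‖ = ‖aeval x H‖ / ‖x‖ ^ K := by
      simp only [hF]
      rw [norm_div, norm_pow]
    rw [e1, div_le_iff₀ (by positivity)]
    have e2 : (4 / (ρ * D)) ^ i = ((ρ / 4 * D) ^ i)⁻¹ := by
      rw [← inv_pow]
      congr 1
      field_simp
    rw [e2]
    have h6 : ‖aeval x H‖ ≤ ((ρ / 4 * D) ^ i)⁻¹ * (B * ‖x‖ ^ K) := by
      rw [inv_mul_eq_div, le_div_iff₀ (by positivity)]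
      linarith
    calc ‖aeval x H‖ ≤ ((ρ / 4 * D) ^ i)⁻¹ * (B * ‖x‖ ^ K) := h6
      _ = B * ((ρ / 4 * D) ^ i)⁻¹ * ‖x‖ ^ K := by ring
  have hmax := Complex.norm_le_of_forall_mem_frontier_norm_le (f := F)
    (U := Metric.ball (0 : ℂ) ρ) Metric.isBounded_ball hFd.diffContOnCl
    (C := B * (4 / (ρ * D)) ^ i) ?_ (z := 0) (subset_closure (Metric.mem_ball_self hρ))
  · have e0 : F 0 = aeval v H / v ^ K := by
      simp only [hF, Complex.exp_zero, mul_one]
    rw [e0, norm_div, norm_pow, hvn, one_pow, div_one] at hmax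
    exact hmax
  · intro s hs
    rw [frontier_ball _ hρ.ne'] at hs
    exact hbound s (by simpa using hs)

end Pool.Agent.Q198.KX
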