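import Pool.Agent.Q79.KX.Stm

/-! Project KX (helper79), job NTa: numbers with many prime factors. -/

set_option autoImplicit false

open Finset

namespace Pool.Agent.Q198.KX

theorem nta : Pool.Agent.Q79.KX.S_NTa := by
  intro x W z hz
  classical
  set P := (Finset.Icc 1 x).filter Nat.Prime with hP
  -- the card as a finset
  have hcard : (Nat.card {N : ℕ // 1 ≤ N ∧ N ≤ x ∧ W ≤ N.primeFactors.card} : ℝ) =
      (((Finset.Ioc 0 x).filter fun N => W ≤ N.primeFactors.card).card : ℝ) := by
    have e : {N : ℕ // 1 ≤ N ∧ N ≤ x ∧ W ≤ N.primeFactors.card} ≃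
        {N : ℕ // N ∈ (Finset.Ioc 0 x).filter fun N => W ≤ N.primeFactors.card} :=
      Equiv.subtypeEquivRight fun N => by
        rw [Finset.mem_filter, Finset.mem_Ioc, and_assoc]
        exact Iff.rfl
    rw [Nat.card_congr e, Nat.card_eq_fintype_card, Fintype.card_coe]
  have h1 : (((Finset.Ioc 0 x).filter fun N => W ≤ N.primeFactors.card).card : ℝ) * z ^ W ≤
      ∑ N ∈ Finset.Ioc 0 x, z ^ N.primeFactors.card := by
    rw [← nsmul_eq_mul, ← Finset.sum_const]
    calc ∑ N ∈ (Finset.Ioc 0 x).filter fun N => W ≤ N.primeFactors.card, z ^ W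
        ≤ ∑ N ∈ (Finset.Ioc 0 x).filter fun N => W ≤ N.primeFactors.card,
            z ^ N.primeFactors.card := by
          refine Finset.sum_le_sum fun N hN => ?_
          exact pow_le_pow_right₀ hz (Finset.mem_filter.1 hN).2
      _ ≤ _ := Finset.sum_le_sum_of_subset_of_nonneg (Finset.filter_subset _ _)
          fun N _ _ => by positivity
  have h2 : ∀ N ∈ Finset.Ioc 0 x, z ^ N.primeFactors.card =
      ∑ T ∈ P.powerset, if T ⊆ N.primeFactors then (z - 1) ^ T.card else 0 := by
    intro N hN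
    rw [Finset.mem_Ioc] at hN
    have e1 : z ^ N.primeFactors.card = ∏ _p ∈ N.primeFactors, (1 + (z - 1)) := by
      rw [Finset.prod_const]; congr 1; ring
    rw [e1, Finset.prod_one_add]
    simp only [Finset.prod_const]
    rw [← Finset.sum_filter]
    refine Finset.sum_congr ?_ fun _ _ => rfl
    ext T
    simp only [Finset.mem_powerset, Finset.mem_filter]
    constructor
    · intro h
      refine ⟨fun p hp => ?_, h⟩
      have hp' := Nat.mem_primeFactors.1 (h hp)
      rw [hP, Finset.mem_filter, Finset.mem_Icc]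
      exact ⟨⟨hp'.1.one_lt.le, (Nat.le_of_dvd hN.1 hp'.2.1).trans hN.2⟩, hp'.1⟩
    · exact fun h => h.2
  have h3 : ∑ N ∈ Finset.Ioc 0 x, z ^ N.primeFactors.card ≤
      ∑ T ∈ P.powerset, (x : ℝ) * ∏ p ∈ T, ((z - 1) / p) := by
    rw [Finset.sum_congr rfl h2, Finset.sum_comm]
    refine Finset.sum_le_sum fun T hT => ?_
    have hTP : ∀ p ∈ T, p.Prime := fun p hp => by
      have := (Finset.mem_powerset.1 hT) hp
      rw [hP, Finset.mem_filter] at this
      exact this.2
    rw [← Finset.sum_filter, Finset.sum_const, nsmul_eq_mul]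
    have h4 : (((Finset.Ioc 0 x).filter fun N => T ⊆ N.primeFactors).card : ℝ) ≤
        (x : ℝ) / ∏ p ∈ T, (p : ℝ) := by
      have h5 : ((Finset.Ioc 0 x).filter fun N => T ⊆ N.primeFactors).card ≤ x / ∏ p ∈ T, p := by
        rw [← Nat.Ioc_filter_dvd_card_eq_div]
        refine Finset.card_le_card fun N hN => ?_
        rw [Finset.mem_filter] at hN ⊢
        refine ⟨hN.1, ?_⟩
        refine Finset.prod_primes_dvd N (fun p hp => (hTP p hp).prime) fun p hp => ?_
        exact Nat.dvd_of_mem_primeFactors (hN.2 hp)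
      calc (((Finset.Ioc 0 x).filter fun N => T ⊆ N.primeFactors).card : ℝ)
          ≤ ((x / ∏ p ∈ T, p : ℕ) : ℝ) := by exact_mod_cast h5
        _ ≤ (x : ℝ) / ((∏ p ∈ T, p : ℕ) : ℝ) := Nat.cast_div_le
        _ = _ := by push_cast; rfl
    have hz1 : 0 ≤ z - 1 := by linarith
    calc (((Finset.Ioc 0 x).filter fun N => T ⊆ N.primeFactors).card : ℝ) * (z - 1) ^ T.card
        ≤ ((x : ℝ) / ∏ p ∈ T, (p : ℝ)) * (z - 1) ^ T.card := by gcongr
      _ = (x : ℝ) * ∏ p ∈ T, ((z - 1) / p) := by
          rw [Finset.prod_div_distrib, Finset.prod_const]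
          ring
  rw [hcard]
  refine h1.trans (h3.trans ?_)
  rw [← Finset.mul_sum, ← Finset.prod_one_add]
  gcongr
  rw [Finset.mul_sum, Real.exp_sum]
  refine Finset.prod_le_prod (fun p _ => ?_) fun p _ => ?_
  · have hz1 : 0 ≤ z - 1 := by linarith
    positivity
  · have h6 := Real.add_one_le_exp (z * (1 / (p : ℝ)))
    refine le_trans ?_ h6
    have : (z - 1) / (p : ℝ) ≤ z * (1 / p) := by
      rw [mul_one_div]
      gcongr
      linarith
    linarith

end Pool.Agent.Q198.KX
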