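import Pool.Agent.Q79.KX.Stm
import Pool.Agent.Q79.KuC
import Pool.Agent.Q79.KvL
import Pool.Agent.Q79.KwA

/-! Project KX (helper79), job TH: divisibility by the cyclotomic polynomial at the square. -/

set_option autoImplicit false

open Finset Polynomial

namespace Pool.Agent.Q198.KX

open Pool.Agent.Q79.KV Pool.Agent.Q79.KU Pool.Agent.Q79.KW

theorem th : Pool.Agent.Q79.KX.S_TH := by
  intro R _ u m hm
  constructor
  · have hnat : ∀ j : ℕ, (cyclotomic m ℤ).eval₂ (Int.castRingHom R) ((u : R) ^ 2) ∣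
        brR u ((m * j : ℕ) : ℤ) := by
      intro j
      have h1 : cyclotomic m ℤ ∣ (X : ℤ[X]) ^ (m * j) - 1 := by
        refine (cyclotomic.dvd_X_pow_sub_one m ℤ).trans ?_
        rw [pow_mul]
        have := sub_dvd_pow_sub_pow ((X : ℤ[X]) ^ m) 1 j
        rwa [one_pow] at this
      have h2 := map_dvd (eval₂RingHom (Int.castRingHom R) ((u : R) ^ 2)) h1
      simp only [coe_eval₂RingHom, eval₂_sub, eval₂_pow, eval₂_X, eval₂_one] at h2
      have h3 : brR u ((m * j : ℕ) : ℤ) =
          ((u ^ (-((m * j : ℕ) : ℤ)) : Rˣ) : R) * (((u : R) ^ 2) ^ (m * j) - 1) := by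
        unfold brR
        have e : ((u : R) ^ 2) ^ (m * j) = ((u ^ (2 * ((m * j : ℕ) : ℤ)) : Rˣ) : R) := by
          rw [zpow_mul, zpow_natCast]
          push_cast
          rfl
        rw [e, mul_sub, mul_one, ← Units.val_mul, ← zpow_add]
        congr 3
        ring
      rw [h3]
      exact h2.mul_left _
    intro k hk
    obtain ⟨j, rfl⟩ := hk
    rcases le_total 0 j with h | h
    · obtain ⟨n, rfl⟩ := Int.eq_ofNat_of_zero_le h
      have := hnat n
      push_cast at this
      exact this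
    · obtain ⟨n, hn⟩ := Int.eq_ofNat_of_zero_le (neg_nonneg.2 h)
      have hj : j = -(n : ℤ) := by omega
      subst hj
      have h4 := hnat n
      push_cast at h4
      have h5 : brR u ((m : ℤ) * -(n : ℤ)) = - brR u ((m : ℤ) * (n : ℤ)) := by
        unfold brR
        have e1 : (m : ℤ) * -(n : ℤ) = -((m : ℤ) * n) := by ring
        rw [e1, neg_neg]
        ring
      rw [h5]
      exact (dvd_neg).2 h4
  · intro a b hab
    -- a square root of a primitive root
    have hm0 : m ≠ 0 := by omega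
    have hz : IsPrimitiveRoot (Complex.exp (2 * Real.pi * Complex.I / m)) m :=
      Complex.isPrimitiveRoot_exp m hm0
    have hx : Complex.exp (Real.pi * Complex.I / m) ≠ 0 := Complex.exp_ne_zero _
    set u0 : ℂˣ := Units.mk0 _ hx with hu0
    have hsq : ((u0 ^ 2 : ℂˣ) : ℂ) = Complex.exp (2 * Real.pi * Complex.I / m) := by
      rw [Units.val_pow_eq_pow_val, hu0, Units.val_mk0, ← Complex.exp_nat_mul]
      congr 1
      push_cast
      ring
    have hprim : IsPrimitiveRoot (u0 ^ 2) m := by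
      rw [← hsq] at hz
      exact IsPrimitiveRoot.coe_units_iff.1 hz
    have h0 : ga ((u0 ^ 2 : ℂˣ) : ℂ) a b = 0 := by
      by_contra hc
      have := mod_le_of_ne (by omega) hprim hc
      omega
    have h1 : aeval ((u0 ^ 2 : ℂˣ) : ℂ) (ga (X : ℤ[X]) a b) = 0 := by
      have := map_ga ((aeval ((u0 ^ 2 : ℂˣ) : ℂ)) : ℤ[X] →ₐ[ℤ] ℂ).toRingHom (X : ℤ[X]) a b
      simp only [AlgHom.toRingHom_eq_coe, RingHom.coe_coe, aeval_X] at this
      rw [this, h0]
    rw [hsq] at h1
    have h2 := cyc_dvd (by omega) hz h1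
    have h3 := map_dvd (eval₂RingHom (Int.castRingHom R) ((u : R) ^ 2)) h2
    have h4 := map_ga (eval₂RingHom (Int.castRingHom R) ((u : R) ^ 2)) (X : ℤ[X]) a b
    rw [h4] at h3
    simp only [coe_eval₂RingHom, eval₂_X] at h3
    have h5 := ga_gb u a b
    rw [Units.val_pow_eq_pow_val] at h5
    rw [h5] at h3
    exact (Units.dvd_mul_left).1 h3

end Pool.Agent.Q198.KX
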